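import Mathlib

set_option autoImplicit false

/-!
# Monotone memory programs for directed reachability

The definitions which the statement of `Pool.Agent.Results.MP_f83138_lc.MonotoneSpace` uses.
-/

namespace Pool.Agent.Lib.MP_f83138_lc.Mono

/-- One step of a monotone memory program. The memory consists of `w` registers, each of them holds
an element of the linearly ordered set `α`. The input is a set `E ⊆ X` (for `X = V × V` a digraph).
The step replaces the whole memory by a function of the old memory and of the input, which is
monotone in both and depends, for every content of the memory, on at most `r` bits of the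
input. -/
structure MonoStep (X : Type*) (w r : ℕ) (α : Type*) [LinearOrder α] where
  /-- The new memory, as a function of the old memory and of the input. -/
  upd : (Fin w → α) → Set X → (Fin w → α)
  /-- The new memory is monotone in the old memory and in the input. -/
  mono : ∀ σ σ' : Fin w → α, σ ≤ σ' → ∀ E E' : Set X, E ⊆ E' → upd σ E ≤ upd σ' E'
  /-- For every content of the memory at most `r` bits of the input are read. -/
  reads : ∀ σ : Fin w → α, ∃ R : Finset X, R.card ≤ r ∧ ∀ E : Set X, upd σ E = upd σ (E ∩ ↑R)

/-- The memory after a list of steps. -/
def run {X : Type*} {w r : ℕ} {α : Type*} [LinearOrder α] (l : List (MonoStep X w r α))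
    (σ : Fin w → α) (E : Set X) : Fin w → α :=
  l.foldl (fun τ s => s.upd τ E) σ

/-- A monotone memory program for digraphs on `n` vertices, with `w` registers which hold elements
of the linearly ordered set `α`: a content of the memory at the beginning, a list of steps, an
output register and a threshold. -/
structure MonoProgram (n w r : ℕ) (α : Type*) [LinearOrder α] where
  /-- The memory at the beginning. -/
  init : Fin w → α
  /-- The steps. -/
  steps : List (MonoStep (Fin n × Fin n) w r α)
  /-- The output register. -/
  out : Fin w
  /-- The threshold. -/
  thr : α

/-- The program accepts if at the end the output register holds at least the threshold. -/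
def MonoProgram.Accepts {n w r : ℕ} {α : Type*} [LinearOrder α] (P : MonoProgram n w r α)
    (E : Set (Fin n × Fin n)) : Prop :=
  P.thr ≤ run P.steps P.init E P.out

/-- There is a directed walk from `s` to `t` in the digraph with the set `E` of edges. -/
def Reachable {V : Type*} (E : Set (V × V)) (s t : V) : Prop :=
  Relation.ReflTransGen (fun x y => (x, y) ∈ E) s t

/-- The answer of the program for the digraph `E` is correct. -/
def MonoProgram.Correct {n w r : ℕ} {α : Type*} [LinearOrder α] (P : MonoProgram n w r α)
    (s t : Fin n) (E : Set (Fin n × Fin n)) : Prop :=
  P.Accepts E ↔ Reachable E s t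

open Classical in
/-- The randomized program which runs the program `P i` with probability `μ i` gives the correct
answer with probability at least `ρ`, for every digraph. -/
def Solves {n w r : ℕ} {α : Type*} [LinearOrder α] {Ω : Type*} [Fintype Ω] (μ : Ω → ℝ)
    (P : Ω → MonoProgram n w r α) (s t : Fin n) (ρ : ℝ) : Prop :=
  (∀ i, 0 ≤ μ i) ∧ ∑ i, μ i = 1 ∧
    ∀ E : Set (Fin n × Fin n), ρ ≤ ∑ i, if (P i).Correct s t E then μ i else 0

end Pool.Agent.Lib.MP_f83138_lc.Mono
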