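import Mathlib
import Pool.Agent.Lib.MP_f83138_lc.Mg.G016

set_option autoImplicit false

/-!
# The choice of the parameters
-/

namespace Pool.Agent.Lib.MP_f83138_lc.Mono

open Finset

/-- The numbers which are used in the proof. -/
theorem numbers {Λ D : ℝ} (hΛ : 2.75 ≤ Λ) (hDΛ : D ≤ Λ) (h64 : 64 * Real.log Λ ≤ D) :
    64 ≤ Λ ∧ 266 ≤ D ∧ 64 ≤ 64 * Λ / D ∧ 64 * Λ / D ≤ Λ ∧ 4 ≤ Real.log (64 * Λ / D) ∧
      Real.log (64 * Λ / D) ≤ Real.log Λ := by
  have h1 : 1 ≤ Real.log Λ := by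
    rw [Real.le_log_iff_exp_le (by linarith)]
    have := Real.exp_one_lt_d9
    linarith
  have h2 : 64 ≤ D := by linarith
  have h3 : 64 ≤ Λ := by linarith
  have h4 : Real.log 64 = 6 * Real.log 2 := by
    rw [show (64 : ℝ) = 2 ^ 6 by norm_num, Real.log_pow]
    norm_num
  have h5 := Real.log_two_gt_d9
  have h6 : Real.log 64 ≤ Real.log Λ := Real.log_le_log (by norm_num) h3
  have h7 : 266 ≤ D := by linarith
  have h8 : 64 ≤ 64 * Λ / D := by
    rw [le_div_iff₀ (by linarith)]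
    nlinarith
  have h9 : 64 * Λ / D ≤ Λ := by
    rw [div_le_iff₀ (by linarith)]
    nlinarith
  refine ⟨h3, h7, h8, h9, ?_, Real.log_le_log (by linarith) h9⟩
  have h10 : Real.log 64 ≤ Real.log (64 * Λ / D) := Real.log_le_log (by norm_num) h8
  linarith

theorem Solves.nonempty {n w r : ℕ} {α : Type*} [LinearOrder α] {Ω : Type*} [Fintype Ω]
    {μ : Ω → ℝ} {P : Ω → MonoProgram n w r α} {s t : Fin n} {ρ : ℝ} (h : Solves μ P s t ρ) :
    Nonempty Ω := by
  by_contra h0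
  rw [not_nonempty_iff] at h0
  have h1 := h.2.1
  rw [Finset.sum_of_isEmpty] at h1
  exact zero_ne_one h1

/-- The lower bound. -/
theorem main {n w r : ℕ} (hn : 16 ≤ n) {α : Type*} [LinearOrder α] {s t : Fin n} (hst : s ≠ t)
    {Ω : Type*} [Fintype Ω] {μ : Ω → ℝ} {P : Ω → MonoProgram n w r α} {D : ℝ}
    (hD : D = Real.log (n / (max w r : ℕ))) (h64 : 64 * Real.log (Real.log n) ≤ D)
    (hP : Solves μ P s t (1 / 2 + Real.exp (-D / 16))) {T : ℕ}
    (hT : ∀ i, (P i).steps.length ≤ T) :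
    Real.exp (D ^ 2 / (16 * Real.log (64 * Real.log n / D))) ≤ T := by
  obtain ⟨i₀⟩ := hP.nonempty
  have hw0 : 0 < w := (P i₀).out.pos
  have hnR : (16 : ℝ) ≤ n := by exact_mod_cast hn
  obtain ⟨W, hW⟩ : ∃ W : ℕ, W = max w r := ⟨_, rfl⟩
  rw [← hW] at hD
  have hwW : w ≤ W := by rw [hW]; exact le_max_left _ _
  have hrW : r ≤ W := by rw [hW]; exact le_max_right _ _
  have hW1 : (1 : ℝ) ≤ W := by
    have : 1 ≤ W := by omega
    exact_mod_cast this
  obtain ⟨Λ, hΛ⟩ : ∃ Λ : ℝ, Λ = Real.log n := ⟨_, rfl⟩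
  rw [← hΛ] at h64 ⊢
  have hc1 := Real.log_two_gt_d9
  have hc2 := Real.log_two_lt_d9
  obtain ⟨c, hc⟩ : ∃ c : ℝ, c = Real.log 2 := ⟨_, rfl⟩
  rw [← hc] at hc1 hc2
  have hΛ1 : 2.75 ≤ Λ := by
    have h1 : Real.log 16 = 4 * Real.log 2 := by
      rw [show (16 : ℝ) = 2 ^ 4 by norm_num, Real.log_pow]
      norm_num
    have h2 : Real.log 16 ≤ Real.log n := Real.log_le_log (by norm_num) hnR
    rw [h1, ← hc, ← hΛ] at h2
    linarith
  have hDΛ : D ≤ Λ := by
    rw [hD, hΛ]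
    refine Real.log_le_log (by positivity) ?_
    exact div_le_self (by positivity) hW1
  have hexpD : Real.exp D * W = n := by
    rw [hD, Real.exp_log (by positivity)]
    field_simp
  have hexpΛ : Real.exp Λ = n := by
    rw [hΛ, Real.exp_log (by positivity)]
  obtain ⟨hΛ64, hD266, hx64, hxΛ, hlx4, hlxℓ⟩ := numbers hΛ1 hDΛ h64
  obtain ⟨x, hx⟩ : ∃ x : ℝ, x = 64 * Λ / D := ⟨_, rfl⟩
  rw [← hx] at hx64 hxΛ hlx4 hlxℓ ⊢
  obtain ⟨lx, hlx⟩ : ∃ lx : ℝ, lx = Real.log x := ⟨_, rfl⟩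
  rw [← hlx] at hlx4 hlxℓ ⊢
  have hxD : x * D = 64 * Λ := by
    rw [hx]
    field_simp
  obtain ⟨q, hq⟩ : ∃ q : ℕ, q = ⌊x⌋₊ := ⟨_, rfl⟩
  obtain ⟨h, hh⟩ : ∃ h : ℕ, h = ⌊D / (5 * lx)⌋₊ := ⟨_, rfl⟩
  obtain ⟨g, hg⟩ : ∃ g : ℕ, g = ⌊2 / 5 * D / c⌋₊ := ⟨_, rfl⟩
  obtain ⟨a, ha⟩ : ∃ a : ℕ, a = ⌊D / (16 * c)⌋₊ := ⟨_, rfl⟩
  have hq1 : (q : ℝ) ≤ x := by rw [hq]; exact Nat.floor_le (by linarith)
  have hq2 : x - 1 < q := by rw [hq]; exact Nat.sub_one_lt_floor x
  have hh1 : (h : ℝ) * (5 * lx) ≤ D := by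
    have : (h : ℝ) ≤ D / (5 * lx) := by rw [hh]; exact Nat.floor_le (by positivity)
    rwa [le_div_iff₀ (by positivity)] at this
  have hh2 : D < (h + 1) * (5 * lx) := by
    have : D / (5 * lx) < h + 1 := by rw [hh]; exact Nat.lt_floor_add_one _
    rwa [div_lt_iff₀ (by positivity)] at this
  have hg1 : (g : ℝ) * c ≤ 2 / 5 * D := by
    have : (g : ℝ) ≤ 2 / 5 * D / c := by rw [hg]; exact Nat.floor_le (by positivity)
    rwa [le_div_iff₀ (by linarith)] at this
  have hg2 : 2 / 5 * D < (g + 1) * c := by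
    have : 2 / 5 * D / c < g + 1 := by rw [hg]; exact Nat.lt_floor_add_one _
    rwa [div_lt_iff₀ (by linarith)] at this
  have ha1 : (a : ℝ) * (16 * c) ≤ D := by
    have : (a : ℝ) ≤ D / (16 * c) := by rw [ha]; exact Nat.floor_le (by positivity)
    rwa [le_div_iff₀ (by linarith)] at this
  have ha2 : D < (a + 1) * (16 * c) := by
    have : D / (16 * c) < a + 1 := by rw [ha]; exact Nat.lt_floor_add_one _
    rwa [div_lt_iff₀ (by linarith)] at this
  have hq0 : 0 < q := by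
    have : (0 : ℝ) < q := by linarith
    exact_mod_cast this
  have ha0 : 1 ≤ a := by
    have : (0 : ℝ) < a := by nlinarith
    exact_mod_cast this
  -- exponentials
  have hexpx : Real.exp lx = x := by rw [hlx, Real.exp_log (by linarith)]
  have hL : ((q ^ h : ℕ) : ℝ) ≤ Real.exp (D / 5) := by
    push_cast
    calc (q : ℝ) ^ h ≤ x ^ h := pow_le_pow_left₀ (by positivity) hq1 h
      _ = Real.exp (h * lx) := by rw [← hexpx, ← Real.exp_nat_mul]
      _ ≤ Real.exp (D / 5) := Real.exp_le_exp.2 (by linarith)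
  have hexp2 : Real.exp c = 2 := by rw [hc, Real.exp_log (by norm_num)]
  have h2pow : ∀ j : ℕ, (2 : ℝ) ^ j = Real.exp (j * c) := by
    intro j
    rw [Real.exp_nat_mul, hexp2]
  have h2g : (2 : ℝ) ^ g ≤ Real.exp (2 / 5 * D) := by
    rw [h2pow]
    exact Real.exp_le_exp.2 hg1
  have h2a : (2 : ℝ) ^ a ≤ Real.exp (D / 16) := by
    rw [h2pow]
    exact Real.exp_le_exp.2 (by linarith)
  obtain ⟨L, hLdef⟩ : ∃ L : ℕ, L = q ^ h := ⟨_, rfl⟩
  rw [← hLdef] at hL
  have hL0 : 0 < L := by rw [hLdef]; positivity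
  have hL1 : (1 : ℝ) ≤ L := by exact_mod_cast hL0
  obtain ⟨m, hm⟩ : ∃ m : ℕ, m = (n - 2) / L := ⟨_, rfl⟩
  obtain ⟨k, hk⟩ : ∃ k : ℕ, k = Nat.log 2 m + 1 := ⟨_, rfl⟩
  -- `m` is large
  have hΛexp : Real.exp (Real.log Λ) = Λ := Real.exp_log (by linarith)
  have hΛD : Λ ≤ Real.exp (D / 64) := by
    rw [← hΛexp]
    exact Real.exp_le_exp.2 (by linarith)
  have hmL : (n : ℝ) ≤ 2 * (L * m) := by
    have h1 : n - 2 < L * (m + 1) := by
      rw [hm, mul_comm]
      exact Nat.lt_mul_of_div_lt (Nat.lt_succ_self _) hL0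
    have h2 : (n : ℝ) < L * m + L + 2 := by
      have : n < L * m + L + 2 := by
        have : L * (m + 1) = L * m + L := by ring
        omega
      exact_mod_cast this
    have h3 : (6 : ℝ) * L ≤ n := by
      have h4 : (6 : ℝ) ≤ Real.exp (D / 64) := by linarith
      calc (6 : ℝ) * L ≤ Real.exp (D / 64) * Real.exp (D / 5) :=
            mul_le_mul h4 hL (by positivity) (by positivity)
        _ = Real.exp (D / 64 + D / 5) := (Real.exp_add _ _).symm
        _ ≤ Real.exp Λ := Real.exp_le_exp.2 (by linarith)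
        _ = n := hexpΛ
    linarith
  have hm0 : 0 < m := by
    rcases Nat.eq_zero_or_pos m with h0 | h0
    · rw [h0] at hmL
      norm_num at hmL
      omega
    · exact h0
  have hkΛ : (k : ℝ) ≤ 2 * Λ := by
    have h1 : 2 ^ Nat.log 2 m ≤ n := by
      refine le_trans (Nat.pow_log_le_self 2 hm0.ne') ?_
      rw [hm]
      exact le_trans (Nat.div_le_self _ _) (Nat.sub_le _ _)
    have h2 : (2 : ℝ) ^ Nat.log 2 m ≤ n := by exact_mod_cast h1
    rw [h2pow, ← hexpΛ, Real.exp_le_exp] at h2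
    rw [hk]
    push_cast
    nlinarith
  -- the main inequality
  have hbig : (32 : ℝ) * q * k * (L * L) * ((2 ^ a * 2 ^ a) * 2 ^ g) < Real.exp D := by
    have h1 : (32 : ℝ) * q * k ≤ Real.exp (3 * (D / 64)) := by
      calc (32 : ℝ) * q * k ≤ 32 * Λ * (2 * Λ) := by
            refine mul_le_mul ?_ hkΛ (by positivity) (by positivity)
            linarith
        _ = 64 * Λ * Λ := by ring
        _ ≤ Λ * Λ * Λ := by
            refine mul_le_mul_of_nonneg_right ?_ (by linarith)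
            exact mul_le_mul_of_nonneg_right hΛ64 (by linarith)
        _ ≤ Real.exp (D / 64) * Real.exp (D / 64) * Real.exp (D / 64) := by
            have : (0 : ℝ) ≤ Λ := by linarith
            gcongr
        _ = Real.exp (3 * (D / 64)) := by
            rw [← Real.exp_add, ← Real.exp_add]
            congr 1
            ring
    have h2 : (L : ℝ) * L ≤ Real.exp (D / 5 + D / 5) := by
      rw [Real.exp_add]
      exact mul_le_mul hL hL (by positivity) (by positivity)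
    have h3 : (2 ^ a * 2 ^ a * 2 ^ g : ℝ) ≤ Real.exp (D / 16 + D / 16 + 2 / 5 * D) := by
      rw [Real.exp_add, Real.exp_add]
      gcongr
    calc (32 : ℝ) * q * k * (L * L) * ((2 ^ a * 2 ^ a) * 2 ^ g)
        ≤ Real.exp (3 * (D / 64)) * Real.exp (D / 5 + D / 5) *
          Real.exp (D / 16 + D / 16 + 2 / 5 * D) := by
          gcongr
      _ = Real.exp (3 * (D / 64) + (D / 5 + D / 5) + (D / 16 + D / 16 + 2 / 5 * D)) := by
          rw [← Real.exp_add, ← Real.exp_add]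
      _ < Real.exp D := Real.exp_lt_exp.2 (by linarith)
  -- multiplied by `W`
  have hbigW : (16 : ℝ) * q * k * L * ((2 ^ a * 2 ^ a) * 2 ^ g) * W < m := by
    have h1 : (32 : ℝ) * q * k * (L * L) * ((2 ^ a * 2 ^ a) * 2 ^ g) * W < n := by
      rw [← hexpD]
      exact mul_lt_mul_of_pos_right hbig (by linarith)
    have h2 : (2 * L : ℝ) * (16 * q * k * L * ((2 ^ a * 2 ^ a) * 2 ^ g) * W) < (2 * L) * m := by
      calc (2 * L : ℝ) * (16 * q * k * L * ((2 ^ a * 2 ^ a) * 2 ^ g) * W)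
          = 32 * q * k * (L * L) * ((2 ^ a * 2 ^ a) * 2 ^ g) * W := by ring
        _ < n := h1
        _ ≤ 2 * (L * m) := hmL
        _ = (2 * L) * m := by ring
    exact lt_of_mul_lt_mul_left h2 (by positivity)
  have hbigN : 16 * q * k * L * ((2 ^ a * 2 ^ a) * 2 ^ g) * W < m := by exact_mod_cast hbigW
  have hk0 : 1 ≤ k := by omega
  obtain ⟨b', hb'⟩ : ∃ b' : ℕ, b' = g + a + Nat.log 2 w + 1 := ⟨_, rfl⟩
  have hb1 : 2 ^ b' ≤ 2 * w * (2 ^ g * 2 ^ a) := by
    have h1 := Nat.pow_log_le_self 2 hw0.ne'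
    rw [hb', pow_succ, pow_add, pow_add]
    calc 2 ^ g * 2 ^ a * 2 ^ Nat.log 2 w * 2 ≤ 2 ^ g * 2 ^ a * w * 2 := by gcongr
      _ = 2 * w * (2 ^ g * 2 ^ a) := by ring
  have hm1 : 8 * q * L * k * 2 ^ (a + b') < m := by
    refine lt_of_le_of_lt ?_ hbigN
    rw [pow_add]
    calc 8 * q * L * k * (2 ^ a * 2 ^ b')
        ≤ 8 * q * L * k * (2 ^ a * (2 * W * (2 ^ g * 2 ^ a))) := by
          refine Nat.mul_le_mul_left _ (Nat.mul_le_mul_left _ (le_trans hb1 ?_))
          gcongr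
      _ = 16 * q * k * L * ((2 ^ a * 2 ^ a) * 2 ^ g) * W := by ring
  have hm2 : 8 * q * L * 2 ^ (a + b') < 2 ^ k := by
    have h1 : m < 2 ^ k := by
      rw [hk]
      exact Nat.lt_pow_succ_log_self (by norm_num) m
    refine lt_trans (lt_of_le_of_lt ?_ hm1) h1
    calc 8 * q * L * 2 ^ (a + b') = 8 * q * L * 1 * 2 ^ (a + b') := by ring
      _ ≤ 8 * q * L * k * 2 ^ (a + b') := by gcongr
  have hbase : 2 * r * 2 ^ a < m := by
    refine lt_of_le_of_lt ?_ hbigN
    have h1 : 1 ≤ q * k * L * (2 ^ a * 2 ^ g) := by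
      have : 0 < q * k * L * (2 ^ a * 2 ^ g) := by positivity
      omega
    calc 2 * r * 2 ^ a ≤ 16 * W * 2 ^ a * 1 := by
          rw [mul_one]
          gcongr
          norm_num
      _ ≤ 16 * W * 2 ^ a * (q * k * L * (2 ^ a * 2 ^ g)) := Nat.mul_le_mul_left _ h1
      _ = 16 * q * k * L * ((2 ^ a * 2 ^ a) * 2 ^ g) * W := by ring
  have hw1 : w * 2 ^ (g + a) < 2 ^ b' := by
    have h1 : w < 2 ^ (Nat.log 2 w + 1) := Nat.lt_pow_succ_log_self (by norm_num) w
    rw [hb', add_assoc (g + a), pow_add _ (g + a), mul_comm w]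
    exact Nat.mul_lt_mul_of_pos_left h1 (by positivity)
  have hnL : q ^ h * m + 2 ≤ n := by
    rw [← hLdef]
    have h1 : L * m ≤ n - 2 := by
      rw [hm]
      exact Nat.mul_div_le _ _
    omega
  have hab : 2 * (b' + 2) ≤ (a - 1) * q := by
    have h1 : ((b' : ℝ) + 2) * c ≤ Λ := by
      have h2 : (2 : ℝ) ^ (b' + 2) ≤ n := by
        have h3 : (2 : ℝ) ^ b' ≤ 2 * w * (2 ^ g * 2 ^ a) := by exact_mod_cast hb1
        have h4 : (w : ℝ) ≤ W := by exact_mod_cast hwW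
        calc (2 : ℝ) ^ (b' + 2) = 4 * 2 ^ b' := by ring
          _ ≤ 4 * (2 * w * (2 ^ g * 2 ^ a)) := by linarith
          _ ≤ 4 * (2 * W * (Real.exp (2 / 5 * D) * Real.exp (D / 16))) := by gcongr
          _ = 8 * Real.exp (2 / 5 * D + D / 16) * W := by rw [Real.exp_add]; ring
          _ ≤ Real.exp (D / 64) * Real.exp (2 / 5 * D + D / 16) * W := by
              gcongr
              linarith
          _ = Real.exp (D / 64 + (2 / 5 * D + D / 16)) * W := by rw [Real.exp_add (D / 64)]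
          _ ≤ Real.exp D * W := by
              gcongr
              linarith
          _ = n := hexpD
      rw [h2pow, ← hexpΛ, Real.exp_le_exp] at h2
      push_cast at h2
      exact h2
    have h2 : 2 * ((b' : ℝ) + 2) ≤ (a - 1) * q := by
      have h3 : 3 / 4 * D ≤ (a - 1 : ℝ) * (16 * c) := by nlinarith
      have h4 : 3 / 4 * x ≤ q := by linarith
      have h5 : (3 / 4 * D) * (3 / 4 * x) ≤ ((a - 1 : ℝ) * (16 * c)) * q :=
        mul_le_mul h3 h4 (by positivity) (by linarith)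
      have h6 : (3 / 4 * D) * (3 / 4 * x) = 36 * Λ := by
        calc (3 / 4 * D) * (3 / 4 * x) = 9 / 16 * (x * D) := by ring
          _ = 36 * Λ := by rw [hxD]; ring
      have h7 : 16 * c * (2 * ((b' : ℝ) + 2)) ≤ 16 * c * ((a - 1) * q) := by nlinarith
      exact le_of_mul_le_mul_left h7 (by linarith)
    have h3 : ((a - 1 : ℕ) : ℝ) = a - 1 := by
      rw [Nat.cast_sub ha0]
      simp
    rw [← h3] at h2
    exact_mod_cast h2
  have hδ : 1 / 2 ^ a < 2 * Real.exp (-D / 16) := by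
    have h1 : Real.exp (D / 16) < 2 ^ (a + 1) := by
      rw [h2pow, Real.exp_lt_exp]
      push_cast
      linarith
    rw [neg_div, Real.exp_neg, ← div_eq_mul_inv, div_lt_div_iff₀ (by positivity) (by positivity),
      one_mul]
    calc Real.exp (D / 16) < 2 ^ (a + 1) := h1
      _ = 2 * 2 ^ a := by rw [pow_succ]; ring
  have hcore := core hst hP hT (q := q) (h := h) (k := k) (g := g) (a := a) (b' := b') (m := m) hq0
    ha0 hδ hnL hbase hw1 hab (by rw [← hLdef]; exact hm1) (by rw [← hLdef]; exact hm2)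
  have h1 : ((2 ^ (g * h) : ℕ) : ℝ) ≤ T := by exact_mod_cast hcore.le
  refine le_trans ?_ h1
  push_cast
  rw [h2pow, Real.exp_le_exp]
  push_cast
  rw [div_le_iff₀ (by positivity)]
  have h2 : 39 / 100 * D ≤ g * c := by linarith
  have h3 : 59 / 320 * D ≤ h * lx := by linarith
  have h4 : (39 / 100 * D) * (59 / 320 * D) ≤ (g * c) * (h * lx) :=
    mul_le_mul h2 h3 (by positivity) (by positivity)
  nlinarith

theorem Solves.mono {n w r : ℕ} {α : Type*} [LinearOrder α] {Ω : Type*} [Fintype Ω]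
    {μ : Ω → ℝ} {P : Ω → MonoProgram n w r α} {s t : Fin n} {ρ ρ' : ℝ} (h : Solves μ P s t ρ)
    (hρ : ρ' ≤ ρ) : Solves μ P s t ρ' :=
  ⟨h.1, h.2.1, fun E => hρ.trans (h.2.2 E)⟩

/-- The lower bound for the number of registers of programs with polynomially many steps. -/
theorem main_poly {n w r : ℕ} (hn : 16 ≤ n) {α : Type*} [LinearOrder α] {s t : Fin n}
    (hst : s ≠ t) {Ω : Type*} [Fintype Ω] {μ : Ω → ℝ} {P : Ω → MonoProgram n w r α}
    (hP : Solves μ P s t (2 / 3)) {c : ℝ} (hc : 1 ≤ c)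
    (hT : ∀ i, ((P i).steps.length : ℝ) ≤ (n : ℝ) ^ c) :
    (n : ℝ) ≤ (max w r : ℕ) * Real.exp (8 * √(c * Real.log n * Real.log (Real.log n))) := by
  by_contra hcon
  push Not at hcon
  obtain ⟨i₀⟩ := hP.nonempty
  have hw0 : 0 < w := (P i₀).out.pos
  have hnR : (16 : ℝ) ≤ n := by exact_mod_cast hn
  obtain ⟨W, hW⟩ : ∃ W : ℕ, W = max w r := ⟨_, rfl⟩
  rw [← hW] at hcon
  have hW1 : (1 : ℝ) ≤ W := by
    have h1 : w ≤ max w r := le_max_left _ _
    have : 1 ≤ W := by omega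
    exact_mod_cast this
  obtain ⟨D, hD⟩ : ∃ D : ℝ, D = Real.log (n / W) := ⟨_, rfl⟩
  obtain ⟨Λ, hΛ⟩ : ∃ Λ : ℝ, Λ = Real.log n := ⟨_, rfl⟩
  rw [← hΛ] at hcon
  have hΛ1 : 2.75 ≤ Λ := by
    have hc1 := Real.log_two_gt_d9
    have h1 : Real.log 16 = 4 * Real.log 2 := by
      rw [show (16 : ℝ) = 2 ^ 4 by norm_num, Real.log_pow]
      norm_num
    have h2 : Real.log 16 ≤ Real.log n := Real.log_le_log (by norm_num) hnR
    rw [h1, ← hΛ] at h2
    linarith
  have hDΛ : D ≤ Λ := by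
    rw [hD, hΛ]
    refine Real.log_le_log (by positivity) ?_
    exact div_le_self (by positivity) hW1
  have hℓ : 1 ≤ Real.log Λ := by
    rw [Real.le_log_iff_exp_le (by linarith)]
    have := Real.exp_one_lt_d9
    linarith
  have hexpΛ : Real.exp Λ = n := by
    rw [hΛ, Real.exp_log (by positivity)]
  have h0 : 0 ≤ c * Λ * Real.log Λ := by positivity
  have h1 : 8 * √(c * Λ * Real.log Λ) < D := by
    rw [hD, Real.lt_log_iff_exp_lt (by positivity), lt_div_iff₀ (by positivity), mul_comm]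
    exact hcon
  have h2 : 64 * (c * Λ * Real.log Λ) < D ^ 2 := by
    have h3 : (8 * √(c * Λ * Real.log Λ)) ^ 2 < D ^ 2 :=
      pow_lt_pow_left₀ h1 (by positivity) (by norm_num)
    rw [mul_pow, Real.sq_sqrt h0] at h3
    linarith
  have h3 : 64 * Real.log Λ ≤ D := by
    by_contra h4
    push Not at h4
    have hD0 : 0 ≤ D := le_trans (by positivity) h1.le
    have h5 : D ^ 2 ≤ Λ * (64 * Real.log Λ) := by
      rw [sq]
      exact mul_le_mul hDΛ h4.le hD0 (by linarith)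
    have h6 : 0 ≤ Λ * Real.log Λ := by positivity
    nlinarith
  obtain ⟨hΛ64, hD266, hx64, hxΛ, hlx4, hlxℓ⟩ := numbers hΛ1 hDΛ h3
  have h4 : 1 / 2 + Real.exp (-D / 16) ≤ 2 / 3 := by
    have h5 : 16 < Real.exp (D / 16) := by
      have := Real.add_one_le_exp (D / 16)
      linarith
    have h6 : Real.exp (-D / 16) ≤ 1 / 16 := by
      rw [neg_div, Real.exp_neg, inv_eq_one_div]
      exact one_div_le_one_div_of_le (by norm_num) h5.le
    linarith
  have h5 := main hn hst (D := D) (by rw [← hW]; exact hD) (by rw [← hΛ]; exact h3) (hP.mono h4)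
    (T := ⌊(n : ℝ) ^ c⌋₊) fun i => Nat.le_floor (hT i)
  rw [← hΛ] at h5
  have h6 : (⌊(n : ℝ) ^ c⌋₊ : ℝ) ≤ (n : ℝ) ^ c := Nat.floor_le (by positivity)
  have h7 : (n : ℝ) ^ c = Real.exp (c * Λ) := by
    rw [Real.rpow_def_of_pos (by linarith), ← hΛ, mul_comm]
  have h8 := le_trans h5 h6
  rw [h7, Real.exp_le_exp, div_le_iff₀ (by positivity)] at h8
  have h9 : c * Λ * (16 * Real.log (64 * Λ / D)) ≤ c * Λ * (16 * Real.log Λ) := by
    have : 0 ≤ c * Λ := by positivity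
    gcongr
  nlinarith

end Pool.Agent.Lib.MP_f83138_lc.Mono
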